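import Pool.Agent.Run7.h975.CC.Main

/-!
# The ratio of central codimensions to codimensions of matrix algebras tends to `1 - 1 / k ^ 2`
-/

set_option autoImplicit false

namespace Pool.Agent.Results.MP_aed2d0_al.LimitValue

open Filter Topology

/-- multilinear polynomials in the first `n` variables of the free algebra -/
def V (F : Type*) [Field F] (n : ℕ) : Submodule F (FreeAlgebra F ℕ) :=
  Submodule.span F (Set.range fun σ : Equiv.Perm (Fin n) =>
    (List.ofFn fun i => FreeAlgebra.ι F ((σ i : Fin n) : ℕ)).prod)

/-- polynomial identities -/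
def Ident (F A : Type*) [Field F] [Ring A] [Algebra F A] : Submodule F (FreeAlgebra F ℕ) where
  carrier := {g | ∀ a : ℕ → A, FreeAlgebra.lift F a g = 0}
  add_mem' := fun hf hg a => by rw [map_add, hf a, hg a, add_zero]
  zero_mem' := fun a => map_zero _
  smul_mem' := fun c g hg a => by rw [map_smul, hg a, smul_zero]

/-- central polynomials (identities included) -/
def Central (F A : Type*) [Field F] [Ring A] [Algebra F A] : Submodule F (FreeAlgebra F ℕ) where
  carrier := {g | ∀ a : ℕ → A, FreeAlgebra.lift F a g ∈ Subalgebra.center F A}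
  add_mem' := fun hf hg a => by
    rw [map_add]
    exact (Subalgebra.center F A).add_mem (hf a) (hg a)
  zero_mem' := fun a => by
    rw [map_zero]
    exact (Subalgebra.center F A).zero_mem
  smul_mem' := fun c g hg a => by
    rw [map_smul]
    exact (Subalgebra.center F A).smul_mem (hg a) c

/-- the codimension sequence -/
noncomputable def codim (F A : Type*) [Field F] [Ring A] [Algebra F A] (n : ℕ) : ℕ :=
  Module.finrank F (V F n ⧸ (Ident F A).comap (V F n).subtype)

/-- the central codimension sequence -/
noncomputable def centralCodim (F A : Type*) [Field F] [Ring A] [Algebra F A] (n : ℕ) : ℕ :=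
  Module.finrank F (V F n ⧸ (Central F A).comap (V F n).subtype)

section bridge

variable {F A W : Type*} [Field F] [Ring A] [Algebra F A] [AddCommGroup W] [Module F W]

/-- evaluation followed by a linear map -/
noncomputable def evW (L : A →ₗ[F] W) : FreeAlgebra F ℕ →ₗ[F] ((ℕ → A) → W) :=
  LinearMap.pi fun a => L ∘ₗ (FreeAlgebra.lift F a).toLinearMap

/-- composition with the restriction to the first variables -/
def resL (F A W : Type*) [Field F] [AddCommGroup W] [Module F W] (n : ℕ) :
    ((Fin n → A) → W) →ₗ[F] ((ℕ → A) → W) where
  toFun h := fun a => h (fun i => a i)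
  map_add' _ _ := rfl
  map_smul' _ _ := rfl

omit [Algebra F A] in
lemma resL_inj (n : ℕ) : Function.Injective (resL F A W n) := by
  intro f g h
  funext x
  have h1 := congrFun h (fun i => if hi : i < n then x ⟨i, hi⟩ else 0)
  simpa [resL] using h1

lemma finrank_quot (L : A →ₗ[F] W) (n : ℕ) :
    Module.finrank F (V F n ⧸ LinearMap.ker ((evW L).comp (V F n).subtype)) =
      Module.finrank F (Submodule.span F (Set.range (fun σ : Equiv.Perm (Fin n) =>
        fun x : Fin n → A => L (List.ofFn (fun i => x (σ i))).prod))) := by
  rw [((evW L).comp (V F n).subtype).quotKerEquivRange.finrank_eq, LinearMap.range_comp,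
    Submodule.range_subtype, V, Submodule.map_span, ← Set.range_comp]
  have h1 := Run7.h975.CC.Rank.finrank_span_inj (resL F A W n) (resL_inj n)
    (fun σ : Equiv.Perm (Fin n) => fun x : Fin n → A => L (List.ofFn (fun i => x (σ i))).prod)
  have h2 : (evW L ∘ fun σ : Equiv.Perm (Fin n) =>
      (List.ofFn fun i => FreeAlgebra.ι F ((σ i : Fin n) : ℕ)).prod) =
      fun σ : Equiv.Perm (Fin n) => resL F A W n
        (fun x : Fin n → A => L (List.ofFn (fun i => x (σ i))).prod) := by
    funext σ a
    change L (FreeAlgebra.lift F a _) = L _
    congr 1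
    rw [map_list_prod, List.map_ofFn]
    congr 2
    funext i
    simp
  rw [h2, h1]

end bridge

/-- For every field of characteristic zero and every `k ≥ 1`, the ratio of the central codimensions
to the codimensions of the algebra of `k × k` matrices tends to `1 - 1 / k ^ 2`. -/
theorem result (F : Type*) [Field F] [CharZero F] (k : ℕ) (hk : 1 ≤ k) :
    Tendsto (fun n : ℕ => (centralCodim F (Matrix (Fin k) (Fin k) F) n : ℝ) /
      (codim F (Matrix (Fin k) (Fin k) F) n : ℝ)) atTop (𝓝 (1 - 1 / (k : ℝ) ^ 2)) := by
  have h := Run7.h975.CC.main_value F k hk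
  have hc : ∀ n, (Central F (Matrix (Fin k) (Fin k) F)).comap (V F n).subtype =
      LinearMap.ker ((evW (Submodule.mkQ (Subalgebra.toSubmodule
        (Subalgebra.center F (Matrix (Fin k) (Fin k) F))))).comp (V F n).subtype) := by
    intro n
    ext g
    rw [LinearMap.mem_ker]
    constructor
    · intro hg
      funext a
      exact (Submodule.Quotient.mk_eq_zero _).2 (hg a)
    · intro hg a
      exact (Submodule.Quotient.mk_eq_zero _).1 (congrFun hg a)
  have hi : ∀ n, (Ident F (Matrix (Fin k) (Fin k) F)).comap (V F n).subtype =
      LinearMap.ker ((evW (LinearMap.id : Matrix (Fin k) (Fin k) F →ₗ[F] _)).comp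
        (V F n).subtype) := by
    intro n
    ext g
    rw [LinearMap.mem_ker]
    constructor
    · intro hg
      funext a
      exact hg a
    · intro hg a
      exact congrFun hg a
  refine h.congr fun n => ?_
  rw [centralCodim, codim, hc, hi, finrank_quot, finrank_quot]
  rfl

end Pool.Agent.Results.MP_aed2d0_al.LimitValue
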